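import Pool.Agent.Q274.FI.Graph
import Pool.Agent.Q274.FI.Deg

/-!
# Infinitely many rooted F-irregular graphs, simultaneously for all small patterns

`rootedDegree F r G v` (in `Pool/Agent/Q274/FI/Deg.lean`) is the `(F)_r`-degree of `v` in `G`: the
number of subgraphs `H` of `G` for which some isomorphism from `F` to `H` sends `r` to `v`.
`IsStar F r` says that `F` is a star with centre `r`.

Theorem. For every `n` there are infinitely many graphs `G`, each of which is `(F)_r`-irregular for
every connected graph `F` with `3 ≤ |F| ≤ n` and every root `r` of `F`, except when `F` is a star
with centre `r`. In particular the answer to Q1 is yes.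

The graphs: two disjoint powers of paths, the `(R-1)`-st power of the path on `2R` vertices for
`R = 16L` and `R = 2L`, and one more vertex `y` joined to all of them except the first vertex of
each path.

Proof. Rooted degrees are compared through the numbers `X(v)` of injective homomorphisms `F → G` with
`r ↦ v`. Let `H` be the graph with the missing edge from `y` to the first vertex of one path added.
In `H` the path power can be reflected, and exchanging two consecutive vertices shows that the
numbers for `H` grow towards the middle of the path by more than the number of homomorphisms that
use the added edge, so only the two mirror images of a vertex have to be compared. Here a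
homomorphism that uses the edge from `y` to the last vertex, with the root in the left half, is
turned into one that uses the edge from `y` to the first vertex: reflect the images of the vertices
of `F` in the component of the vertex mapped to the last vertex, with respect to the edges of `F`
whose ends are so close to the ends of the path that they determine each other's side. This is
injective up to few exceptions, and it misses all the homomorphisms in which a neighbour of the root
is mapped to the first vertex; their number exceeds the number of exceptions because there is a
path of length two in `F` starting at the root.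
-/

set_option autoImplicit false

namespace Pool.Agent.Results.MP_c25556_co.PathPowersWithApex

open Pool.Agent.Q274.FI

/-- `F` is a star with centre `r`. -/
def IsStar {V : Type} (F : SimpleGraph V) (r : V) : Prop :=
  ∀ a b, F.Adj a b ↔ a ≠ b ∧ (a = r ∨ b = r)

/-- `G` is `(F)_r`-irregular. -/
def Irregular {V W : Type} (F : SimpleGraph V) (r : V) (G : SimpleGraph W) : Prop :=
  ∀ u v : W, u ≠ v → rootedDegree F r G u ≠ rootedDegree F r G v

/-- The statement of Q1; graphs of different orders are not isomorphic, so it suffices to give
infinitely many orders. -/
def Question : Prop :=
  ∀ (V : Type) [Fintype V] (F : SimpleGraph V), F.Connected → 3 ≤ Fintype.card V →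
    ∀ r : V, ¬ IsStar F r → {m : ℕ | ∃ G : SimpleGraph (Fin m), Irregular F r G}.Infinite

theorem simultaneous (n : ℕ) :
    {m : ℕ | ∃ G : SimpleGraph (Fin m), ∀ (V : Type) [Fintype V] (F : SimpleGraph V),
      F.Connected → 3 ≤ Fintype.card V → Fintype.card V ≤ n →
        ∀ r : V, ¬ IsStar F r → Irregular F r G}.Infinite := by
  refine Set.infinite_of_forall_exists_gt fun K => ?_
  set L := n ^ 4 * 40 ^ n + K + 1 with hL
  refine ⟨36 * L + 1, ?_, by omega⟩
  obtain ⟨G, y, ι, κ, hT⟩ := exists_two L
  refine ⟨G, ?_⟩
  intro V _ F hF h3 hn r hst u v huv heq
  refine huv (hT.injective hF h3 r hst ?_ (Emb_card_eq_of_degree heq))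
  have h1 : Fintype.card V ^ 4 * 40 ^ Fintype.card V ≤ n ^ 4 * 40 ^ n :=
    Nat.mul_le_mul (Nat.pow_le_pow_left hn 4) (Nat.pow_le_pow_right (by norm_num) hn)
  omega

/-- For every `n` infinitely many graphs are `(F)_r`-irregular for all connected `F` with
`3 ≤ |F| ≤ n` and all roots `r` other than the centre of a star; hence the answer to Q1 is yes. -/
theorem result :
    (∀ n : ℕ, {m : ℕ | ∃ G : SimpleGraph (Fin m), ∀ (V : Type) [Fintype V] (F : SimpleGraph V),
      F.Connected → 3 ≤ Fintype.card V → Fintype.card V ≤ n →
        ∀ r : V, ¬ IsStar F r → Irregular F r G}.Infinite) ∧ Question := by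
  refine ⟨simultaneous, ?_⟩
  intro V _ F hF h3 r hst
  refine (simultaneous (Fintype.card V)).mono ?_
  rintro m ⟨G, hG⟩
  exact ⟨G, hG V F hF h3 le_rfl r hst⟩

end Pool.Agent.Results.MP_c25556_co.PathPowersWithApex
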